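import Pool.Agent.MP_fcd29e_an.H31.Spec3
import Pool.Agent.MP_fcd29e_an.H31.S3a

/-!
The extension across the boundary in weak form.
-/

set_option autoImplicit false

open MeasureTheory Complex Set Filter Topology Metric Pool.Agent.MP_fcd29e_an.H81
  Pool.Agent.MP_fcd29e_an.H31
open scoped ContDiff ComplexConjugate ENNReal NNReal FourierTransform SchwartzMap

namespace Pool.Agent.MP_fcd29e_an.H77

variable {N : ℕ}

theorem ek_hom (L : Lv0) (j : Fin N) : Hom (E0 N) (-(N : ℤ)) (1 - N) (Ek j) := by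
  intro c hc z _
  rw [(((L.bm1 N j.pos).2.1 j).2.2.2.1 z).2.2 c hc]
  congr 1
  have hc' : conj c ≠ 0 := by simpa using hc
  have e : (((‖c‖ ^ (2 * N) : ℝ)) : ℂ) = c ^ N * conj c ^ N := by
    rw [← mul_pow, Complex.mul_conj, Complex.normSq_eq_norm_sq, pow_mul]
    push_cast; rfl
  rw [e, zpow_sub₀ hc', zpow_neg, zpow_natCast, zpow_natCast, zpow_one]
  field_simp

theorem off {U : Set (E N)} {ψ : E N → ℂ} (h : Test U ψ) {x : E N} (hx : x ∉ U) : ψ x = 0 :=
  image_eq_zero_of_notMem_tsupport fun a => hx (h.2.2 a)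

theorem ibp (L : Lv0) {ρ : E N → ℝ} (hρ : Dom ρ) (i j : Fin N) {ψ : E N → ℂ}
    (hψ : Test (Om ρ) ψ) {y : E N} (hy : y ∉ Om ρ) :
    ∫ x, dz i (Ek j) (x - y) * ψ x = Ec j (dz i ψ) y := by
  obtain ⟨-, -, hs, hp, -⟩ := (L.bm1 N j.pos).2.1 j
  obtain ⟨-, -, -, t4, -, t6, -⟩ := L.t1 N (Om ρ) (L.c1 N ρ hρ).1 fun h => h.1 rfl
  have hf : ContDiffOn ℝ ∞ (fun x => Ek j (x - y)) (Om ρ) :=
    hs.comp (contDiff_id.sub contDiff_const).contDiffOn fun x hx h =>
      hy (sub_eq_zero.1 h ▸ hx)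
  have h := ((t6 _ hf).2 i).2 ψ hψ
  have hd := ((t4 ψ hψ).2.2.1 i).1
  rw [setIntegral_eq_integral_of_forall_compl_eq_zero fun x hx => by rw [off hd hx, mul_zero],
    setIntegral_eq_integral_of_forall_compl_eq_zero fun x hx => by rw [off hψ hx, mul_zero]] at h
  have e : ∀ x, dz i (fun x => Ek j (x - y)) x = dz i (Ek j) (x - y) := fun x => by
    simp only [dz, fderiv_comp_sub]
  simp only [e] at h
  have e2 : ∀ x, Ek j (y - x) * dz i ψ x = -(Ek j (x - y) * dz i ψ x) := fun x => by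
    rw [← neg_sub x y, (hp _).1, neg_mul]
  simp only [Ec, e2]
  rw [integral_neg, h, neg_neg]

theorem prod_int (L : Lv0) {ρ : E N → ℝ} (hρ : Dom ρ) (i j : Fin N) {G ψ : E N → ℂ}
    (hm : AEStronglyMeasurable G volume) (h0 : ∀ᵐ z, ρ z ≤ 0 → G z = 0) (hG : DI G)
    (hψ : Test (Om ρ) ψ) :
    Integrable (fun p : E N × E N => dz i (Ek j) (p.1 - p.2) * G p.2 * ψ p.1)
      (volume.prod volume) := by
  have c0 := (L.bm1 N j.pos).1
  obtain ⟨δ, hδ, hs⟩ := hψ.2.1.isCompact.exists_cthickening_subset_open (L.c1 N ρ hρ).1 hψ.2.2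
  obtain ⟨R, hR0, hR⟩ := hψ.2.1.isCompact.isBounded.exists_pos_norm_le
  set A : ℝ := (1 + R) / δ + 1 with hA
  have hA0 : 0 < A := by positivity
  have hi : Integrable ψ := hψ.1.continuous.integrable_of_hasCompactSupport hψ.2.1
  refine ((hi.norm.mul_prod hG.norm).const_mul (cN N * N * A ^ (2 * N - 1) / δ)).mono'
    ((((meas_dz i _).comp (measurable_fst.sub measurable_snd)).aestronglyMeasurable.mul
      hm.comp_snd).mul (hψ.1.continuous.comp continuous_fst).aestronglyMeasurable) ?_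
  filter_upwards [Measure.quasiMeasurePreserving_snd.ae h0] with p hp
  obtain ⟨x, y⟩ := p
  simp only at hp ⊢
  by_cases hx : x ∈ tsupport ψ
  swap
  · rw [image_eq_zero_of_notMem_tsupport hx]; simp
  rcases le_or_gt (ρ y) 0 with hy | hy
  · rw [hp hy]; simp
  have hd : δ < ‖x - y‖ := by
    by_contra h
    have : y ∈ cthickening δ (tsupport ψ) :=
      mem_cthickening_of_dist_le y x δ _ hx (by rw [dist_comm, dist_eq_norm]; exact not_lt.1 h)
    exact absurd (hs this).2 (not_lt.2 hy.le)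
  have hn : 0 < ‖x - y‖ := hδ.trans hd
  have h1 : 1 + ‖y‖ ≤ A * ‖x - y‖ := by
    have a : ‖y‖ ≤ ‖x‖ + ‖x - y‖ := by
      simpa using norm_sub_le x (x - y)
    have b : 1 + R ≤ (1 + R) / δ * ‖x - y‖ := by
      rw [div_mul_eq_mul_div, le_div_iff₀ hδ]
      exact mul_le_mul_of_nonneg_left hd.le (by positivity)
    have := hR x hx
    rw [hA, add_mul]; linarith
  have h2 : ‖dz i (Ek j) (x - y)‖ ≤
      cN N * N * A ^ (2 * N - 1) / δ / (1 + ‖y‖) ^ (2 * N - 1) := by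
    rw [dz_Ek i j (norm_pos_iff.1 hn)]
    refine (norm_DE c0 i j (norm_pos_iff.1 hn)).trans ?_
    rw [div_div, div_le_div_iff₀ (by positivity) (by positivity)]
    have e : ‖x - y‖ ^ (2 * N) = ‖x - y‖ * ‖x - y‖ ^ (2 * N - 1) := by
      rw [← pow_succ']; congr 1; have := j.pos; omega
    have h3 : (1 + ‖y‖) ^ (2 * N - 1) ≤ A ^ (2 * N - 1) * ‖x - y‖ ^ (2 * N - 1) := by
      rw [← mul_pow]; exact pow_le_pow_left₀ (by positivity) h1 _
    rw [e]
    calc cN N * N * (δ * (1 + ‖y‖) ^ (2 * N - 1))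
        ≤ cN N * N * (‖x - y‖ * (A ^ (2 * N - 1) * ‖x - y‖ ^ (2 * N - 1))) := by gcongr
      _ = _ := by ring
  rw [norm_mul, norm_mul, norm_div, Complex.norm_real, Real.norm_of_nonneg (by positivity)]
  calc ‖dz i (Ek j) (x - y)‖ * ‖G y‖ * ‖ψ x‖
      ≤ cN N * N * A ^ (2 * N - 1) / δ / (1 + ‖y‖) ^ (2 * N - 1) * ‖G y‖ * ‖ψ x‖ := by gcongr
    _ = _ := by ring

theorem tkw (L : Lv2) (h : StmtTKb) : StmtTKw := by
  intro N ρ hρ s hs G a b hW hG hH j
  have hN : 1 ≤ N := j.pos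
  have hS := ((L.bm1 N hN).2.1 j).2.2.1
  have hE := ek_hom L.toLv0 j
  refine ⟨?_, fun i => ?_⟩
  · obtain ⟨U, h1, h2, h3⟩ := h N hN ρ hρ s hs (Ek j) G _ _ a b hS hE (by omega) (by omega) hW hG hH
    refine ⟨fun z => -1 * U z, ((L.sbs N s hs.le).1 U h1).2.2 _ contDiffOn_const, ?_, ?_⟩
    · intro c hc z hz
      have := h2 c hc z hz
      rw [show a + -(N : ℤ) + N = a by ring, show b + (1 - (N : ℤ)) + N = b + 1 by ring] at this
      simp only [this]; ring
    · intro ψ hψ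
      have := (((L.bm2 N hN).2.2 G hG j).2.2 ψ ⟨hψ.1, hψ.2.1⟩).2
      rw [← neg_neg (∫ y, G y * Ec j ψ y), ← this, ← integral_neg]
      refine integral_congr_ae ?_
      filter_upwards [h3] with x hx
      by_cases hx' : x ∈ Om ρ
      · rw [hx hx']; simp only [Cv, Ec]; ring
      · simp only [off hψ hx', mul_zero, neg_zero]
  · have hS' : ContDiffOn ℝ ∞ (dz i (Ek j)) (E0 N) := fun z hz =>
      (contDiffAt_dz i (hS.contDiffAt (isOpen_E0.mem_nhds hz))).contDiffWithinAt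
    have hE' := (((L.pf N).1 _ _ _ _ isOpen_E0 cone_E0 hE).1 i).1
    obtain ⟨U, h1, h2, h3⟩ :=
      h N hN ρ hρ s hs (dz i (Ek j)) G _ _ a b hS' hE' (by omega) (by omega) hW hG hH
    rw [show a + (-(N : ℤ) - 1) + N = a - 1 by ring,
      show b + (1 - (N : ℤ)) + N = b + 1 by ring] at h2
    refine ⟨U, h1, h2, fun ψ hψ => ?_⟩
    have e1 : ∫ x, U x * ψ x = ∫ x, ∫ y, dz i (Ek j) (x - y) * G y * ψ x := by
      refine integral_congr_ae ?_
      filter_upwards [h3] with x hx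
      rw [integral_mul_const]
      by_cases hx' : x ∈ Om ρ
      · rw [hx hx']; rfl
      · simp only [off hψ hx', mul_zero]
    rw [e1, integral_integral_swap (prod_int L.toLv0 hρ i j hW.1 hW.2.1 hG hψ)]
    refine integral_congr_ae ?_
    filter_upwards [hW.2.1] with y hy
    rcases le_or_gt (ρ y) 0 with hy' | hy'
    · simp [hy hy']
    · rw [← ibp L.toLv0 hρ i j hψ fun h => absurd h.2 (not_lt.2 hy'.le), ← integral_const_mul]
      exact integral_congr_ae (Eventually.of_forall fun x => by simp only; ring)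

end Pool.Agent.MP_fcd29e_an.H77
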